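import Mathlib

set_option autoImplicit false

open Finset

namespace Pool.Agent.Results.MP_d2c11a_nt.SunCongruence

/-- The sequence `s_n = (6n)! n! / (2 (2n+1) (3n)! ((2n)!)^2)`. -/
def s (n : ℕ) : ℚ :=
  (((6 * n).factorial : ℚ) * (n.factorial : ℚ)) /
    (2 * (2 * (n : ℚ) + 1) * ((3 * n).factorial : ℚ) * ((2 * n).factorial : ℚ) ^ 2)

/-- Congruence modulo `p` in the localisation of the integers at `p`:
`a - b = p * (m / n)` with integers `m, n` and `p` not dividing `n`. -/
def CongModLoc (p : ℕ) (a b : ℚ) : Prop :=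
  ∃ m n : ℤ, ¬ (p : ℤ) ∣ n ∧ a - b = (p : ℚ) * ((m : ℚ) / (n : ℚ))

/-- `x` is `p`-integral with reduction `y`. -/
def Red (p : ℕ) (x : ℚ) (y : ZMod p) : Prop :=
  ∃ m n : ℤ, (n : ZMod p) ≠ 0 ∧ x * n = m ∧ y * n = m

section red

variable {p : ℕ} [hp : Fact p.Prime]

lemma Red.add {x x' : ℚ} {y y' : ZMod p} (h : Red p x y) (h' : Red p x' y') :
    Red p (x + x') (y + y') := by
  obtain ⟨m, n, hn, h1, h2⟩ := h
  obtain ⟨m', n', hn', h1', h2'⟩ := h'
  refine ⟨m * n' + m' * n, n * n', by push_cast; exact mul_ne_zero hn hn', ?_, ?_⟩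
  · push_cast; rw [← h1, ← h1']; ring
  · push_cast; rw [← h2, ← h2']; ring

lemma Red.mul {x x' : ℚ} {y y' : ZMod p} (h : Red p x y) (h' : Red p x' y') :
    Red p (x * x') (y * y') := by
  obtain ⟨m, n, hn, h1, h2⟩ := h
  obtain ⟨m', n', hn', h1', h2'⟩ := h'
  refine ⟨m * m', n * n', by push_cast; exact mul_ne_zero hn hn', ?_, ?_⟩
  · push_cast; rw [← h1, ← h1']; ring
  · push_cast; rw [← h2, ← h2']; ring

lemma Red.inv {x : ℚ} {y : ZMod p} (h : Red p x y) (hy : y ≠ 0) : Red p x⁻¹ y⁻¹ := by
  obtain ⟨m, n, hn, h1, h2⟩ := h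
  have hm : (m : ZMod p) ≠ 0 := by rw [← h2]; exact mul_ne_zero hy hn
  have hm0 : (m : ℚ) ≠ 0 := by
    intro h0
    have : m = 0 := by exact_mod_cast h0
    apply hm; rw [this]; simp
  have hx : x ≠ 0 := by
    intro h0; apply hm0; rw [← h1, h0]; simp
  refine ⟨n, m, hm, ?_, ?_⟩
  · rw [← h1]; field_simp
  · rw [← h2]; field_simp

lemma Red.div {x x' : ℚ} {y y' : ZMod p} (h : Red p x y) (h' : Red p x' y') (hy : y' ≠ 0) :
    Red p (x / x') (y / y') := by
  rw [div_eq_mul_inv, div_eq_mul_inv]
  exact h.mul (h'.inv hy)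

lemma Red.int (m : ℤ) : Red p (m : ℚ) (m : ZMod p) :=
  ⟨m, 1, by simp, by simp, by simp⟩

lemma Red.nat (m : ℕ) : Red p (m : ℚ) (m : ZMod p) := by
  simpa using Red.int (p := p) (m : ℤ)

lemma Red.pow {x : ℚ} {y : ZMod p} (h : Red p x y) (k : ℕ) : Red p (x ^ k) (y ^ k) := by
  induction k with
  | zero => simpa using Red.nat (p := p) 1
  | succ k ih => rw [pow_succ, pow_succ]; exact ih.mul h

lemma Red.sum {ι : Type*} (t : Finset ι) (f : ι → ℚ) (g : ι → ZMod p)
    (h : ∀ i ∈ t, Red p (f i) (g i)) : Red p (∑ i ∈ t, f i) (∑ i ∈ t, g i) := by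
  classical
  induction t using Finset.induction_on with
  | empty => simpa using Red.nat (p := p) 0
  | insert a t ha ih =>
    rw [Finset.sum_insert ha, Finset.sum_insert ha]
    exact (h a (Finset.mem_insert_self _ _)).add
      (ih (fun i hi => h i (Finset.mem_insert_of_mem hi)))

omit hp in
lemma Red.congr {x : ℚ} {y y' : ZMod p} (h : Red p x y) (e : y = y') : Red p x y' := e ▸ h

lemma Red.cong {x z : ℚ} {y : ZMod p} (h : Red p x y) (h' : Red p z y) : CongModLoc p x z := by
  have h3 := h.add ((Red.int (-1)).mul h')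
  obtain ⟨m, n, hn, h1, h2⟩ := h3
  have : (m : ZMod p) = 0 := by rw [← h2]; push_cast; ring
  rw [ZMod.intCast_zmod_eq_zero_iff_dvd] at this
  obtain ⟨q, rfl⟩ := this
  have hn' : ¬ (p : ℤ) ∣ n := by
    rw [← ZMod.intCast_zmod_eq_zero_iff_dvd]; exact hn
  refine ⟨q, n, hn', ?_⟩
  have hn0 : (n : ℚ) ≠ 0 := by
    intro h0
    have : n = 0 := by exact_mod_cast h0
    apply hn; rw [this]; simp
  field_simp
  push_cast at h1
  linarith

end red

section poch

/-- rising factorial -/
def poch {K : Type*} [CommRing K] (x : K) (n : ℕ) : K := ∏ j ∈ range n, (x + j)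

variable {K : Type*}

lemma poch_succ [CommRing K] (x : K) (n : ℕ) : poch x (n + 1) = poch x n * (x + n) := by
  simp [poch, Finset.prod_range_succ]

lemma poch_succ' [CommRing K] (x : K) (n : ℕ) : poch x (n + 1) = x * poch (x + 1) n := by
  simp only [poch, Finset.prod_range_succ']
  rw [mul_comm]
  congr 1
  · simp
  · apply Finset.prod_congr rfl
    intro j _
    push_cast; ring

lemma poch_zero [CommRing K] (x : K) : poch x 0 = 1 := by simp [poch]

/-- Chu-Vandermonde in a commutative ring. -/
lemma chu [CommRing K] (m : ℕ) : ∀ b c : K,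
    ∑ k ∈ range (m + 1), (-1) ^ k * (m.choose k : K) * poch b k * poch (c + k) (m - k)
      = poch (c - b) m := by
  induction m with
  | zero => intro b c; simp [poch]
  | succ m ih =>
    intro b c
    have key : ∀ k ∈ range (m + 1 + 1),
        (-1) ^ k * ((m + 1).choose k : K) * poch b k * poch (c + k) (m + 1 - k)
        = (-1) ^ k * ((m).choose k : K) * poch b k * poch (c + k) (m + 1 - k)
          + (if k = 0 then 0 else
            (-1) ^ k * ((m).choose (k - 1) : K) * poch b k * poch (c + k) (m + 1 - k)) := by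
      intro k _
      rcases k with _ | k
      · simp
      · rw [Nat.choose_succ_succ']
        simp
        ring
    rw [Finset.sum_congr rfl key, Finset.sum_add_distrib]
    have h1 : ∑ k ∈ range (m + 1 + 1),
        (-1) ^ k * ((m).choose k : K) * poch b k * poch (c + k) (m + 1 - k)
        = (c + m) * poch (c - b) m := by
      rw [Finset.sum_range_succ]
      rw [Nat.choose_succ_self]
      rw [← ih b c, Finset.mul_sum]
      simp only [Nat.cast_zero, mul_zero, zero_mul, add_zero]
      apply Finset.sum_congr rfl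
      intro k hk
      have hk' : k ≤ m := by simpa [Nat.lt_succ_iff] using hk
      have e : m + 1 - k = (m - k) + 1 := by omega
      rw [e, poch_succ]
      have e2 : ((m - k : ℕ) : K) = (m : K) - k := by
        rw [Nat.cast_sub hk']
      rw [e2]
      ring
    have h2 : ∑ k ∈ range (m + 1 + 1), (if k = 0 then 0 else
            (-1) ^ k * ((m).choose (k - 1) : K) * poch b k * poch (c + k) (m + 1 - k))
        = - b * poch (c - b) m := by
      rw [Finset.sum_range_succ']
      simp only [if_true, add_zero, Nat.succ_ne_zero, if_false, Nat.add_sub_cancel]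
      have e := ih (b + 1) (c + 1)
      have e3 : c + 1 - (b + 1) = c - b := by ring
      rw [e3] at e
      rw [← e, Finset.mul_sum]
      apply Finset.sum_congr rfl
      intro k hk
      rw [poch_succ' b k]
      have e4 : m + 1 - (k + 1) = m - k := by omega
      rw [e4]
      have e5 : c + ((k + 1 : ℕ) : K) = c + 1 + k := by push_cast; ring
      rw [e5, pow_succ]
      simp
      ring
    rw [h1, h2, poch_succ]
    ring

lemma poch_add [CommRing K] (x : K) (a b : ℕ) : poch x (a + b) = poch x a * poch (x + a) b := by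
  induction b with
  | zero => simp [poch]
  | succ b ih =>
    rw [← add_assoc, poch_succ, ih, poch_succ]
    push_cast
    ring

/-- the hypergeometric term with ratio `(j-M)(j+b)/((j+c)(j+1))` -/
def hyp {K : Type*} [Field K] (M : ℕ) (b c : K) (k : ℕ) : K :=
  ∏ j ∈ range k, (((j : K) - M) * (j + b) / ((j + c) * (j + 1)))

lemma hyp_eq [Field K] (M : ℕ) (b c : K) (hc : ∀ j < M, (j : K) + c ≠ 0)
    (h1 : ∀ j < M, (j : K) + 1 ≠ 0) (k : ℕ) (hk : k ≤ M) :
    hyp M b c k * poch c k = (-1) ^ k * (M.choose k : K) * poch b k := by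
  induction k with
  | zero => simp [hyp, poch]
  | succ k ih =>
    have ih := ih (by omega)
    have hkM : k < M := by omega
    have e1 : hyp M b c (k + 1) = hyp M b c k * (((k : K) - M) * (k + b) / ((k + c) * (k + 1))) := by
      unfold hyp
      rw [Finset.prod_range_succ]
    rw [e1, poch_succ, poch_succ]
    have hchoose : ((M.choose (k + 1) : ℕ) : K) * (k + 1) = (M.choose k : K) * ((M : K) - k) := by
      have := Nat.choose_succ_right_eq M k
      have h2 : ((M.choose (k + 1) * (k + 1) : ℕ) : K) = ((M.choose k * (M - k) : ℕ) : K) := by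
        rw [this]
      push_cast [Nat.cast_sub hkM.le] at h2
      exact h2
    have hck := hc k hkM
    have h1k := h1 k hkM
    have : hyp M b c k * (((k : K) - M) * (k + b) / ((k + c) * (k + 1))) * (poch c k * (c + k))
        = (hyp M b c k * poch c k) * (((k : K) - M) * (k + b) / (k + 1)) := by
      field_simp
      ring
    rw [this, ih]
    have : (-1 : K) ^ k * (M.choose k : K) * poch b k * (((k : K) - M) * (k + b) / (k + 1))
        = (-1) ^ (k + 1) * ((M.choose k : K) * ((M : K) - k)) / (k + 1) * (poch b k * (b + k)) := by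
      rw [pow_succ]
      field_simp
      ring
    rw [this, ← hchoose]
    field_simp

lemma hyp_zero [Field K] (M : ℕ) (b c : K) (k : ℕ) (hk : M < k) : hyp M b c k = 0 := by
  unfold hyp
  apply Finset.prod_eq_zero (Finset.mem_range.mpr hk)
  simp

lemma poch_ne_zero [Field K] (c : K) (n : ℕ) (hc : ∀ j < n, (j : K) + c ≠ 0) : poch c n ≠ 0 := by
  unfold poch
  rw [Finset.prod_ne_zero_iff]
  intro j hj
  have := hc j (Finset.mem_range.mp hj)
  rwa [add_comm] at this

lemma sum_hyp [Field K] (M : ℕ) (b c : K) (hc : ∀ j < M, (j : K) + c ≠ 0)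
    (h1 : ∀ j < M, (j : K) + 1 ≠ 0) (N : ℕ) (hN : M < N) :
    ∑ k ∈ range N, hyp M b c k = poch (c - b) M / poch c M := by
  have hsub : range (M + 1) ⊆ range N := by
    intro k hk
    simp only [Finset.mem_range] at hk ⊢
    omega
  rw [← Finset.sum_subset hsub]
  · rw [eq_div_iff (poch_ne_zero c M hc), ← chu M b c, Finset.sum_mul]
    apply Finset.sum_congr rfl
    intro k hk
    have hk' : k ≤ M := by simpa [Nat.lt_succ_iff] using hk
    have e : poch c M = poch c k * poch (c + k) (M - k) := by
      rw [← poch_add]; congr 1; omega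
    rw [e, ← mul_assoc, hyp_eq M b c hc h1 k hk']
  · intro k _ hk
    apply hyp_zero
    simp only [Finset.mem_range] at hk
    omega

lemma poch_reflect [Field K] (n : ℕ) (h : K) :
    poch (h - n) n = (-1) ^ n * poch (1 - h) n := by
  unfold poch
  rw [← Finset.prod_range_reflect]
  have hpow : (-1 : K) ^ n = ∏ _j ∈ range n, (-1 : K) := by simp
  rw [hpow, ← Finset.prod_mul_distrib]
  apply Finset.prod_congr rfl
  intro j hj
  have hj' : j < n := Finset.mem_range.mp hj
  have : ((n - 1 - j : ℕ) : K) = (n : K) - 1 - j := by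
    rw [Nat.cast_sub (by omega), Nat.cast_sub (by omega)]
    simp
  rw [this]
  ring

end poch

section seq

/-- `a_k = s_k / 108^k` -/
def a (k : ℕ) : ℚ := s k / 108 ^ k

lemma a_zero : a 0 = 1 / 2 := by
  simp [a, s]

lemma a_succ (k : ℕ) : a (k + 1) =
    a k * (((6 * (k : ℚ) + 1) * (6 * k + 5)) / (18 * (2 * k + 3) * (k + 1))) := by
  unfold a s
  have e6 : 6 * (k + 1) = 6 * k + 6 := by ring
  have e3 : 3 * (k + 1) = 3 * k + 3 := by ring
  have e2 : 2 * (k + 1) = 2 * k + 2 := by ring
  rw [e6, e3, e2]
  have f6 : ((6 * k + 6).factorial : ℚ) = (6 * k + 6) * (6 * k + 5) * (6 * k + 4) * (6 * k + 3)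
      * (6 * k + 2) * (6 * k + 1) * ((6 * k).factorial : ℚ) := by
    simp only [Nat.factorial_succ]
    push_cast
    ring
  have f3 : ((3 * k + 3).factorial : ℚ) = (3 * k + 3) * (3 * k + 2) * (3 * k + 1)
      * ((3 * k).factorial : ℚ) := by
    simp only [Nat.factorial_succ]
    push_cast
    ring
  have f2 : ((2 * k + 2).factorial : ℚ) = (2 * k + 2) * (2 * k + 1)
      * ((2 * k).factorial : ℚ) := by
    simp only [Nat.factorial_succ]
    push_cast
    ring
  have f1 : ((k + 1).factorial : ℚ) = (k + 1) * (k.factorial : ℚ) := by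
    simp only [Nat.factorial_succ]
    push_cast
    ring
  rw [f6, f3, f2, f1]
  have g3 : ((3 * k).factorial : ℚ) ≠ 0 := by exact_mod_cast Nat.factorial_ne_zero _
  have g2 : ((2 * k).factorial : ℚ) ≠ 0 := by exact_mod_cast Nat.factorial_ne_zero _
  have g1 : (k.factorial : ℚ) ≠ 0 := by exact_mod_cast Nat.factorial_ne_zero _
  have p1 : (2 * (k : ℚ) + 1) ≠ 0 := by positivity
  have p2 : (2 * (k : ℚ) + 3) ≠ 0 := by positivity
  have p3 : ((k : ℚ) + 1) ≠ 0 := by positivity
  have p4 : (3 * (k : ℚ) + 1) ≠ 0 := by positivity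
  have p5 : (3 * (k : ℚ) + 2) ≠ 0 := by positivity
  have p6 : (3 * (k : ℚ) + 3) ≠ 0 := by positivity
  have p7 : (2 * (k : ℚ) + 2) ≠ 0 := by positivity
  have p8 : (2 * ((k : ℚ) + 1) + 1) ≠ 0 := by positivity
  push_cast
  rw [pow_succ]
  field_simp
  ring

section main

variable {p : ℕ} [hp : Fact p.Prime]

lemma nat_ne_zero_of_lt {x : ℕ} (h0 : 0 < x) (h : x < p) : (x : ZMod p) ≠ 0 := by
  intro h'
  rw [ZMod.natCast_eq_zero_iff] at h'
  exact absurd (Nat.le_of_dvd h0 h') (by omega)

lemma two_ne (h3 : 3 < p) : (2 : ZMod p) ≠ 0 := by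
  have := nat_ne_zero_of_lt (p := p) (x := 2) (by norm_num) (by omega)
  simpa using this

lemma three_ne (h3 : 3 < p) : (3 : ZMod p) ≠ 0 := by
  have := nat_ne_zero_of_lt (p := p) (x := 3) (by norm_num) (by omega)
  simpa using this

/-- the value of `a` at `(p-1)/2`. -/
lemma red_mid (h3 : 3 < p) (n : ℕ) (hn : p = 2 * n + 1) :
    Red p (a n) (-(1 / 4) * (3 : ZMod p) ^ n) := by
  have h2ne := two_ne (p := p) h3
  have h3ne := three_ne (p := p) h3
  have hn1 : 2 ≤ n := by omega
  -- factorial identities
  have F1 : (6 * n).factorial = (2 * p).factorial * (2 * p + 1).ascFactorial (p - 3) := by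
    rw [Nat.factorial_mul_ascFactorial]
    congr 1; omega
  have F2 : (2 * p).factorial = p.factorial * ((p + 1).ascFactorial (p - 1) * (2 * p)) := by
    have := Nat.factorial_mul_ascFactorial p (p - 1)
    have h4 : 2 * p = (p + (p - 1)) + 1 := by omega
    rw [← mul_assoc, this]
    conv_lhs => rw [h4, Nat.factorial_succ]
    rw [← h4, mul_comm]
  have F3 : (3 * n).factorial = p.factorial * (p + 1).ascFactorial (n - 1) := by
    rw [Nat.factorial_mul_ascFactorial]
    congr 1; omega
  have F4 : (2 * n).factorial = (p - 1).factorial := by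
    congr 1; omega
  have A1 : (((2 * p + 1).ascFactorial (p - 3) : ℕ) : ZMod p) = ((p - 3).factorial : ZMod p) := by
    rw [Nat.ascFactorial_eq_prod_range, ← Finset.prod_range_add_one_eq_factorial]
    push_cast
    apply Finset.prod_congr rfl
    intro i _
    simp
    ring
  have A2 : (((p + 1).ascFactorial (p - 1) : ℕ) : ZMod p) = ((p - 1).factorial : ZMod p) := by
    rw [Nat.ascFactorial_eq_prod_range, ← Finset.prod_range_add_one_eq_factorial]
    push_cast
    apply Finset.prod_congr rfl
    intro i _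
    simp
    ring
  have A3 : (((p + 1).ascFactorial (n - 1) : ℕ) : ZMod p) = ((n - 1).factorial : ZMod p) := by
    rw [Nat.ascFactorial_eq_prod_range, ← Finset.prod_range_add_one_eq_factorial]
    push_cast
    apply Finset.prod_congr rfl
    intro i _
    simp
    ring
  have fac_ne : ∀ k < p, ((k.factorial : ℕ) : ZMod p) ≠ 0 := by
    intro k hk h0
    rw [ZMod.natCast_eq_zero_iff, Nat.Prime.dvd_factorial hp.out] at h0
    omega
  have G1 : ((n.factorial : ℕ) : ZMod p) = n * ((n - 1).factorial : ZMod p) := by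
    have : n.factorial = n * (n - 1).factorial := by
      rw [Nat.mul_factorial_pred (by omega)]
    rw [this]; push_cast; rfl
  have G2 : (((p - 1).factorial : ℕ) : ZMod p) = 2 * ((p - 3).factorial : ZMod p) := by
    have e : (p - 1).factorial = (p - 1) * ((p - 2) * (p - 3).factorial) := by
      have e1 : p - 1 = (p - 3) + 1 + 1 := by omega
      have e2 : p - 2 = (p - 3) + 1 := by omega
      rw [e1, Nat.factorial_succ, Nat.factorial_succ, e2]
    rw [e]
    push_cast [Nat.cast_sub (show 1 ≤ p by omega), Nat.cast_sub (show 2 ≤ p by omega)]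
    simp
  have hnval : (2 : ZMod p) * n = -1 := by
    have : ((2 * n + 1 : ℕ) : ZMod p) = 0 := by rw [← hn]; simp
    push_cast at this
    linear_combination this
  -- closed form for `s n`
  have S1 : s n = (((p + 1).ascFactorial (p - 1) : ℚ) * ((2 * p + 1).ascFactorial (p - 3) : ℚ)
      * (n.factorial : ℚ)) / (((p + 1).ascFactorial (n - 1) : ℚ) * ((p - 1).factorial : ℚ) ^ 2) := by
    unfold s
    rw [F1, F2, F3, F4]
    have hpp : (2 * (n : ℚ) + 1) = p := by rw [hn]; push_cast; ring
    rw [hpp]
    have hp0 : (p : ℚ) ≠ 0 := by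
      have := hp.out.pos
      positivity
    have q1 : (p.factorial : ℚ) ≠ 0 := by exact_mod_cast Nat.factorial_ne_zero _
    have q2 : ((p - 1).factorial : ℚ) ≠ 0 := by exact_mod_cast Nat.factorial_ne_zero _
    have q3 : ((p + 1).ascFactorial (n - 1) : ℚ) ≠ 0 := by
      have : 0 < (p + 1).ascFactorial (n - 1) := Nat.ascFactorial_pos _ _
      positivity
    push_cast
    field_simp
  have R1 : Red p (s n) ((((p - 1).factorial : ZMod p) * ((p - 3).factorial : ZMod p)
      * (n.factorial : ZMod p)) / (((n - 1).factorial : ZMod p) * ((p - 1).factorial : ZMod p) ^ 2)) := by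
    rw [S1]
    have hA3 : ((n - 1).factorial : ZMod p) ≠ 0 := fac_ne _ (by omega)
    have hp1 : ((p - 1).factorial : ZMod p) ≠ 0 := fac_ne _ (by omega)
    have r1 : Red p ((p + 1).ascFactorial (p - 1) : ℚ) ((p - 1).factorial : ZMod p) :=
      (Red.nat _).congr A2
    have r2 : Red p ((2 * p + 1).ascFactorial (p - 3) : ℚ) ((p - 3).factorial : ZMod p) :=
      (Red.nat _).congr A1
    have r3 : Red p ((p + 1).ascFactorial (n - 1) : ℚ) ((n - 1).factorial : ZMod p) :=
      (Red.nat _).congr A3
    exact ((r1.mul r2).mul (Red.nat _)).div (r3.mul ((Red.nat _).pow 2))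
      (mul_ne_zero hA3 (pow_ne_zero _ hp1))
  have R2 : Red p (s n) (-(1 / 4) : ZMod p) := by
    apply R1.congr
    rw [G1, G2]
    have hA3 : ((n - 1).factorial : ZMod p) ≠ 0 := fac_ne _ (by omega)
    have hp3 : ((p - 3).factorial : ZMod p) ≠ 0 := fac_ne _ (by omega)
    field_simp
    have h4 : (4 : ZMod p) ≠ 0 := by
      have : (4 : ZMod p) = 2 * 2 := by norm_num
      rw [this]; exact mul_ne_zero h2ne h2ne
    field_simp
    linear_combination 2 * hnval
  have h108 : (108 : ZMod p) ≠ 0 := by
    have : (108 : ZMod p) = 2 * 2 * (3 * 3 * 3) := by norm_num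
    rw [this]
    exact mul_ne_zero (mul_ne_zero h2ne h2ne) (mul_ne_zero (mul_ne_zero h3ne h3ne) h3ne)
  have R3 : Red p (a n) ((-(1 / 4) : ZMod p) / (108 : ZMod p) ^ n) := by
    unfold a
    apply R2.div _ (pow_ne_zero _ h108)
    have := (Red.nat (p := p) 108).pow n
    simpa using this
  apply R3.congr
  have h6 : (6 : ZMod p) ≠ 0 := by
    have : (6 : ZMod p) = 2 * 3 := by norm_num
    rw [this]; exact mul_ne_zero h2ne h3ne
  have e1 : (108 : ZMod p) ^ n = 3 ^ n * 6 ^ (2 * n) := by
    rw [pow_mul, ← mul_pow]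
    norm_num
  have e2 : (6 : ZMod p) ^ (2 * n) = 1 := by
    have : 2 * n = p - 1 := by omega
    rw [this]; exact ZMod.pow_card_sub_one_eq_one h6
  have e3 : (3 : ZMod p) ^ n * 3 ^ n = 1 := by
    rw [← pow_add]
    have : n + n = p - 1 := by omega
    rw [this]; exact ZMod.pow_card_sub_one_eq_one h3ne
  rw [e1, e2, mul_one]
  rw [div_eq_iff (pow_ne_zero _ h3ne)]
  linear_combination (1 / 4) * e3

lemma block1 (h3 : 3 < p) (n : ℕ) (hn : p = 2 * n + 1) (M : ℕ)
    (hM : (36 : ZMod p) * (M * (M + 1)) = -5) (hM2 : 6 * M < p) :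
    Red p (∑ k ∈ range n, a k) ((1 / 2) * ((-1) ^ M / (2 * M + 1))) := by
  have h2ne := two_ne (p := p) h3
  have h3ne := three_ne (p := p) h3
  have hk : ∀ k, k < n → Red p (a k) ((1 / 2) * hyp M ((M : ZMod p) + 1) (3 / 2) k) := by
    intro k
    induction k with
    | zero =>
      intro _
      rw [a_zero]
      have : Red p ((1 : ℚ) / 2) ((1 : ZMod p) / 2) := by
        have h1 := Red.nat (p := p) 1
        have h2 := Red.nat (p := p) 2
        have := h1.div h2 (by simpa using h2ne)
        simpa using this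
      simpa [hyp] using this
    | succ k ih =>
      intro hk1
      have ih := ih (by omega)
      rw [a_succ]
      have d1 : ((2 * k + 3 : ℕ) : ZMod p) ≠ 0 := nat_ne_zero_of_lt (by omega) (by omega)
      have d2 : ((k + 1 : ℕ) : ZMod p) ≠ 0 := nat_ne_zero_of_lt (by omega) (by omega)
      have d3 : ((18 * (2 * k + 3) * (k + 1) : ℕ) : ZMod p) ≠ 0 := by
        push_cast
        push_cast at d1 d2
        have : (18 : ZMod p) = 2 * 3 * 3 := by norm_num
        rw [this]
        exact mul_ne_zero (mul_ne_zero (mul_ne_zero (mul_ne_zero h2ne h3ne) h3ne) d1) d2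
      have r := (Red.nat (p := p) ((6 * k + 1) * (6 * k + 5))).div
        (Red.nat (p := p) (18 * (2 * k + 3) * (k + 1))) d3
      have r2 := ih.mul r
      push_cast at r2
      apply r2.congr
      have e1 : hyp M ((M : ZMod p) + 1) (3 / 2) (k + 1) = hyp M ((M : ZMod p) + 1) (3 / 2) k
          * (((k : ZMod p) - M) * (k + (M + 1)) / ((k + 3 / 2) * (k + 1))) := by
        unfold hyp
        rw [Finset.prod_range_succ]
      rw [e1]
      push_cast at d1 d2 d3
      have d4 : (k : ZMod p) + 3 / 2 ≠ 0 := by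
        intro h0
        apply d1
        field_simp at h0
        linear_combination h0
      have e2 : ((6 * (k : ZMod p) + 1) * (6 * k + 5)) / (18 * (2 * k + 3) * (k + 1))
          = (((k : ZMod p) - M) * (k + (M + 1)) / ((k + 3 / 2) * (k + 1))) := by
        rw [div_eq_div_iff d3 (mul_ne_zero d4 d2)]
        have e3 : (18 : ZMod p) * (2 * k + 3) * (k + 1) = 36 * ((k + 3 / 2) * (k + 1)) := by
          field_simp
          ring
        rw [e3]
        linear_combination (((k : ZMod p) + 3 / 2) * (k + 1)) * hM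
      rw [e2]
      ring
  have hsum := Red.sum (p := p) (range n) a
    (fun k => (1 / 2) * hyp M ((M : ZMod p) + 1) (3 / 2) k)
    (fun k hk' => hk k (Finset.mem_range.mp hk'))
  apply hsum.congr
  rw [← Finset.mul_sum]
  congr 1
  have hj1 : ∀ j < M, (j : ZMod p) + 3 / 2 ≠ 0 := by
    intro j hj h0
    have d1 : ((2 * j + 3 : ℕ) : ZMod p) ≠ 0 := nat_ne_zero_of_lt (by omega) (by omega)
    push_cast at d1
    apply d1
    field_simp at h0
    linear_combination h0
  have hj2 : ∀ j < M, (j : ZMod p) + 1 ≠ 0 := by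
    intro j hj
    have d1 : ((j + 1 : ℕ) : ZMod p) ≠ 0 := nat_ne_zero_of_lt (by omega) (by omega)
    push_cast at d1
    exact d1
  rw [sum_hyp M ((M : ZMod p) + 1) (3 / 2) hj1 hj2 n (by omega)]
  have e1 : (3 / 2 : ZMod p) - (M + 1) = 1 / 2 - M := by field_simp; ring
  rw [e1, poch_reflect]
  have e2 : (1 : ZMod p) - 1 / 2 = 1 / 2 := by field_simp; ring
  rw [e2]
  have e3 : poch (1 / 2 : ZMod p) M * (1 / 2 + M) = 1 / 2 * poch (3 / 2 : ZMod p) M := by
    have := (poch_succ (1 / 2 : ZMod p) M).symm.trans (poch_succ' (1 / 2 : ZMod p) M)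
    rw [this]
    congr 2
    field_simp; ring
  have hp32 := poch_ne_zero (3 / 2 : ZMod p) M hj1
  have d5 : (2 * (M : ZMod p) + 1) ≠ 0 := by
    have d1 : ((2 * M + 1 : ℕ) : ZMod p) ≠ 0 := nat_ne_zero_of_lt (by omega) (by omega)
    push_cast at d1
    exact d1
  rw [div_eq_div_iff hp32 d5]
  have e4 : poch (1 / 2 : ZMod p) M * (2 * M + 1) = poch (3 / 2 : ZMod p) M := by
    field_simp at e3
    linear_combination e3
  rw [mul_assoc, e4]

lemma block2 (h3 : 3 < p) (n : ℕ) (hn : p = 2 * n + 1) (N : ℕ) (hNe : Even N)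
    (hN : (9 : ZMod p) * (N * N) = 1) (hN2 : 3 * N ≤ p + 1) :
    Red p (∑ i ∈ range (n + 1), a (n + i)) (-(1 / 4) * (3 : ZMod p) ^ n) := by
  have h2ne := two_ne (p := p) h3
  have h3ne := three_ne (p := p) h3
  have hnval : (2 : ZMod p) * n = -1 := by
    have : ((2 * n + 1 : ℕ) : ZMod p) = 0 := by rw [← hn]; simp
    push_cast at this
    linear_combination this
  have hk : ∀ k, k < n + 1 → Red p (a (n + k))
      ((-(1 / 4) * (3 : ZMod p) ^ n) * hyp N (N : ZMod p) (1 / 2) k) := by
    intro k
    induction k with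
    | zero =>
      intro _
      have := red_mid h3 n hn
      simpa [hyp] using this
    | succ k ih =>
      intro hk1
      have ih := ih (by omega)
      rw [← add_assoc, a_succ]
      have d1 : ((2 * (n + k) + 3 : ℕ) : ZMod p) ≠ 0 := by
        have e : ((2 * (n + k) + 3 : ℕ) : ZMod p) = ((2 * (k + 1) : ℕ) : ZMod p) := by
          push_cast
          linear_combination hnval
        rw [e]
        exact nat_ne_zero_of_lt (by omega) (by omega)
      have d2 : ((n + k + 1 : ℕ) : ZMod p) ≠ 0 := nat_ne_zero_of_lt (by omega) (by omega)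
      have d3 : ((18 * (2 * (n + k) + 3) * (n + k + 1) : ℕ) : ZMod p) ≠ 0 := by
        push_cast
        push_cast at d1 d2
        have : (18 : ZMod p) = 2 * 3 * 3 := by norm_num
        rw [this]
        exact mul_ne_zero (mul_ne_zero (mul_ne_zero (mul_ne_zero h2ne h3ne) h3ne) d1) d2
      have r := (Red.nat (p := p) ((6 * (n + k) + 1) * (6 * (n + k) + 5))).div
        (Red.nat (p := p) (18 * (2 * (n + k) + 3) * (n + k + 1))) d3
      have r2 := ih.mul r
      push_cast at r2
      push_cast
      apply r2.congr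
      have e1 : hyp N (N : ZMod p) (1 / 2) (k + 1) = hyp N (N : ZMod p) (1 / 2) k
          * (((k : ZMod p) - N) * (k + N) / ((k + 1 / 2) * (k + 1))) := by
        unfold hyp
        rw [Finset.prod_range_succ]
      rw [e1]
      have d6 : ((k + 1 : ℕ) : ZMod p) ≠ 0 := nat_ne_zero_of_lt (by omega) (by omega)
      push_cast at d1 d2 d3 d6
      have d4 : (k : ZMod p) + 1 / 2 ≠ 0 := by
        intro h0
        apply d2
        have : (2 : ZMod p) * (n + k + 1) = 0 := by
          field_simp at h0
          linear_combination h0 + hnval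
        rcases mul_eq_zero.mp this with h | h
        · exact absurd h h2ne
        · exact h
      have e2 : ((6 * ((n : ZMod p) + k) + 1) * (6 * (n + k) + 5)) /
          (18 * (2 * (n + k) + 3) * (n + k + 1))
          = (((k : ZMod p) - N) * (k + N) / ((k + 1 / 2) * (k + 1))) := by
        rw [div_eq_div_iff d3 (mul_ne_zero d4 d6)]
        have e3 : (18 : ZMod p) * (2 * (n + k) + 3) * (n + k + 1)
            = 36 * ((k + 1 / 2) * (k + 1)) := by
          have e31 : (2 : ZMod p) * (n + k) + 3 = 2 * (k + 1) := by linear_combination hnval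
          have e32 : (n : ZMod p) + k + 1 = k + 1 / 2 := by
            field_simp
            linear_combination hnval
          rw [e31, e32]; ring
        have e4 : (6 * ((n : ZMod p) + k) + 1) = 6 * k - 2 := by linear_combination 3 * hnval
        have e5 : (6 * ((n : ZMod p) + k) + 5) = 6 * k + 2 := by linear_combination 3 * hnval
        rw [e3, e4, e5]
        linear_combination (4 * ((k : ZMod p) + 1 / 2) * (k + 1)) * hN
      rw [e2]
      ring
  have hsum := Red.sum (p := p) (range (n + 1)) (fun i => a (n + i))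
    (fun k => (-(1 / 4) * (3 : ZMod p) ^ n) * hyp N (N : ZMod p) (1 / 2) k)
    (fun k hk' => hk k (Finset.mem_range.mp hk'))
  apply hsum.congr
  rw [← Finset.mul_sum]
  have hj1 : ∀ j < N, (j : ZMod p) + 1 / 2 ≠ 0 := by
    intro j hj h0
    have d1 : ((2 * j + 1 : ℕ) : ZMod p) ≠ 0 := nat_ne_zero_of_lt (by omega) (by omega)
    push_cast at d1
    apply d1
    field_simp at h0
    linear_combination h0
  have hj2 : ∀ j < N, (j : ZMod p) + 1 ≠ 0 := by
    intro j hj
    have d1 : ((j + 1 : ℕ) : ZMod p) ≠ 0 := nat_ne_zero_of_lt (by omega) (by omega)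
    push_cast at d1
    exact d1
  rw [sum_hyp N (N : ZMod p) (1 / 2) hj1 hj2 (n + 1) (by omega)]
  rw [poch_reflect]
  have e2 : (1 : ZMod p) - 1 / 2 = 1 / 2 := by field_simp; ring
  rw [e2, hNe.neg_one_pow, one_mul, div_self (poch_ne_zero _ _ hj1), mul_one]

lemma total (h3 : 3 < p) (n : ℕ) (hn : p = 2 * n + 1) (M N : ℕ)
    (hM : (36 : ZMod p) * (M * (M + 1)) = -5) (hM2 : 6 * M < p) (hNe : Even N)
    (hN : (9 : ZMod p) * (N * N) = 1) (hN2 : 3 * N ≤ p + 1) :
    Red p (∑ k ∈ Finset.Icc 1 (p - 1), s k / 108 ^ k)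
      ((1 / 2) * ((-1) ^ M / (2 * M + 1)) + (-(1 / 4) * (3 : ZMod p) ^ n) - 1 / 2) := by
  have h2ne := two_ne (p := p) h3
  have h1 := (block1 h3 n hn M hM hM2).add (block2 h3 n hn N hNe hN hN2)
  rw [← Finset.sum_range_add (fun k => a k) n (n + 1)] at h1
  have e1 : n + (n + 1) = p := by omega
  rw [e1] at h1
  have e2 : ∑ k ∈ range p, a k = ∑ k ∈ Finset.Icc 1 (p - 1), s k / 108 ^ k + 1 / 2 := by
    have e3 : range p = insert 0 (Finset.Icc 1 (p - 1)) := by
      ext x
      simp only [Finset.mem_range, Finset.mem_insert, Finset.mem_Icc]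
      omega
    rw [e3, Finset.sum_insert (by simp), a_zero]
    unfold a
    ring
  rw [e2] at h1
  have h2 : Red p (-(1 / 2) : ℚ) (-(1 / 2) : ZMod p) := by
    have h1 := Red.int (p := p) (-1)
    have h2 := Red.nat (p := p) 2
    have := h1.div h2 (by simpa using h2ne)
    simpa [neg_div] using this
  have h3 := h1.add h2
  have e4 : ∑ k ∈ Finset.Icc 1 (p - 1), s k / 108 ^ k + 1 / 2 + -(1 / 2)
      = ∑ k ∈ Finset.Icc 1 (p - 1), s k / 108 ^ k := by ring
  rw [e4] at h3
  apply h3.congr
  ring

lemma leg (n : ℕ) (hn : p = 2 * n + 1) : (3 : ZMod p) ^ n = (legendreSym p 3 : ZMod p) := by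
  rw [legendreSym.eq_pow]
  have : p / 2 = n := by omega
  rw [this]
  simp

end main

end seq

lemma l31 : legendreSym 3 1 = 1 := by decide

lemma l32 : legendreSym 3 2 = -1 := by decide

/-- **Sun's congruence.** -/
theorem result : ∀ p : ℕ, p.Prime → 3 < p →
    ((p % 12 = 1 ∨ p % 12 = 11) →
      CongModLoc p (∑ k ∈ Finset.Icc 1 (p - 1), s k / 108 ^ k) 0) ∧
    ((p % 12 = 5 ∨ p % 12 = 7) →
      CongModLoc p (∑ k ∈ Finset.Icc 1 (p - 1), s k / 108 ^ k) (-1)) := by
  intro p hp h3
  have : Fact p.Prime := ⟨hp⟩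
  have h2ne := two_ne (p := p) h3
  have h3ne := three_ne (p := p) h3
  have red0 : Red p (0 : ℚ) (0 : ZMod p) := by simpa using Red.nat (p := p) 0
  have red1 : Red p (-1 : ℚ) (-1 : ZMod p) := by simpa using Red.int (p := p) (-1)
  have zp : (p : ZMod p) = 0 := by simp
  constructor
  · rintro (h | h)
    · -- p = 12 l + 1
      obtain ⟨l, hl⟩ : ∃ l, p = 12 * l + 1 := ⟨p / 12, by omega⟩
      have hcast : (12 : ZMod p) * l = -1 := by
        have : ((12 * l + 1 : ℕ) : ZMod p) = 0 := by rw [← hl]; exact zp
        push_cast at this; linear_combination this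
      have ht := total h3 (6 * l) (by omega) (2 * l) (4 * l)
        (by push_cast; linear_combination (12 * (l : ZMod p) + 5) * hcast) (by omega)
        ⟨2 * l, by ring⟩ (by push_cast; linear_combination (12 * (l : ZMod p) - 1) * hcast)
        (by omega)
      refine (ht.congr ?_).cong red0
      have hleg : legendreSym p 3 = 1 := by
        have := legendreSym.quadratic_reciprocity_one_mod_four (p := p) (q := 3)
          (by omega) (by norm_num)
        have e := legendreSym.mod 3 (p : ℤ)
        have e' : ((p : ℤ) % ((3 : ℕ) : ℤ)) = 1 := by omega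
        rw [e', l31] at e
        push_cast at this
        rw [← this, e]
      rw [leg (6 * l) (by omega), hleg, pow_mul]
      have d5 : (2 * ((2 * l : ℕ) : ZMod p) + 1) ≠ 0 := by
        intro h0
        apply h2ne
        push_cast at h0
        linear_combination 3 * h0 - hcast
      have e5 : (2 * ((2 * l : ℕ) : ZMod p) + 1) = 2 / 3 := by
        field_simp
        push_cast
        linear_combination hcast
      rw [e5]
      simp only [even_two, Even.neg_pow, one_pow, Int.cast_one]
      have h4 : (4 : ZMod p) ≠ 0 := by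
        have : (4 : ZMod p) = 2 * 2 := by norm_num
        rw [this]; exact mul_ne_zero h2ne h2ne
      field_simp
      ring
    · -- p = 12 l + 11
      obtain ⟨l, hl⟩ : ∃ l, p = 12 * l + 11 := ⟨p / 12, by omega⟩
      have hcast : (12 : ZMod p) * l = -11 := by
        have : ((12 * l + 11 : ℕ) : ZMod p) = 0 := by rw [← hl]; exact zp
        push_cast at this; linear_combination this
      have ht := total h3 (6 * l + 5) (by omega) (2 * l + 1) (4 * l + 4)
        (by push_cast; linear_combination (12 * (l : ZMod p) + 7) * hcast) (by omega)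
        ⟨2 * l + 2, by ring⟩ (by push_cast; linear_combination (12 * (l : ZMod p) + 13) * hcast)
        (by omega)
      refine (ht.congr ?_).cong red0
      have hleg : legendreSym p 3 = 1 := by
        have := legendreSym.quadratic_reciprocity_three_mod_four (p := p) (q := 3)
          (by omega) (by norm_num)
        have e := legendreSym.mod 3 (p : ℤ)
        have e' : ((p : ℤ) % ((3 : ℕ) : ℤ)) = 2 := by omega
        rw [e', l32] at e
        push_cast at this
        rw [e] at this
        linarith
      rw [leg (6 * l + 5) (by omega), hleg, pow_succ, pow_mul]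
      have e5 : (2 * ((2 * l + 1 : ℕ) : ZMod p) + 1) = -2 / 3 := by
        field_simp
        push_cast
        linear_combination hcast
      rw [e5]
      simp only [even_two, Even.neg_pow, one_pow, Int.cast_one]
      have h4 : (4 : ZMod p) ≠ 0 := by
        have : (4 : ZMod p) = 2 * 2 := by norm_num
        rw [this]; exact mul_ne_zero h2ne h2ne
      field_simp
      ring
  · rintro (h | h)
    · -- p = 12 l + 5
      obtain ⟨l, hl⟩ : ∃ l, p = 12 * l + 5 := ⟨p / 12, by omega⟩
      have hcast : (12 : ZMod p) * l = -5 := by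
        have : ((12 * l + 5 : ℕ) : ZMod p) = 0 := by rw [← hl]; exact zp
        push_cast at this; linear_combination this
      have ht := total h3 (6 * l + 2) (by omega) (2 * l) (4 * l + 2)
        (by push_cast; linear_combination (12 * (l : ZMod p) + 1) * hcast) (by omega)
        ⟨2 * l + 1, by ring⟩ (by push_cast; linear_combination (12 * (l : ZMod p) + 7) * hcast)
        (by omega)
      refine (ht.congr ?_).cong red1
      have hleg : legendreSym p 3 = -1 := by
        have := legendreSym.quadratic_reciprocity_one_mod_four (p := p) (q := 3)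
          (by omega) (by norm_num)
        have e := legendreSym.mod 3 (p : ℤ)
        have e' : ((p : ℤ) % ((3 : ℕ) : ℤ)) = 2 := by omega
        rw [e', l32] at e
        push_cast at this
        rw [← this, e]
      rw [leg (6 * l + 2) (by omega), hleg, pow_mul]
      have e5 : (2 * ((2 * l : ℕ) : ZMod p) + 1) = -2 / 3 := by
        field_simp
        push_cast
        linear_combination hcast
      rw [e5]
      simp only [even_two, Even.neg_pow, one_pow, Int.cast_neg, Int.cast_one]
      have h4 : (4 : ZMod p) ≠ 0 := by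
        have : (4 : ZMod p) = 2 * 2 := by norm_num
        rw [this]; exact mul_ne_zero h2ne h2ne
      field_simp
      ring
    · -- p = 12 l + 7
      obtain ⟨l, hl⟩ : ∃ l, p = 12 * l + 7 := ⟨p / 12, by omega⟩
      have hcast : (12 : ZMod p) * l = -7 := by
        have : ((12 * l + 7 : ℕ) : ZMod p) = 0 := by rw [← hl]; exact zp
        push_cast at this; linear_combination this
      have ht := total h3 (6 * l + 3) (by omega) (2 * l + 1) (4 * l + 2)
        (by push_cast; linear_combination (12 * (l : ZMod p) + 11) * hcast) (by omega)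
        ⟨2 * l + 1, by ring⟩ (by push_cast; linear_combination (12 * (l : ZMod p) + 5) * hcast)
        (by omega)
      refine (ht.congr ?_).cong red1
      have hleg : legendreSym p 3 = -1 := by
        have := legendreSym.quadratic_reciprocity_three_mod_four (p := p) (q := 3)
          (by omega) (by norm_num)
        have e := legendreSym.mod 3 (p : ℤ)
        have e' : ((p : ℤ) % ((3 : ℕ) : ℤ)) = 1 := by omega
        rw [e', l31] at e
        push_cast at this
        rw [e] at this
        linarith
      rw [leg (6 * l + 3) (by omega), hleg, pow_succ, pow_mul]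
      have e5 : (2 * ((2 * l + 1 : ℕ) : ZMod p) + 1) = 2 / 3 := by
        field_simp
        push_cast
        linear_combination hcast
      rw [e5]
      simp only [even_two, Even.neg_pow, one_pow, Int.cast_neg, Int.cast_one]
      have h4 : (4 : ZMod p) ≠ 0 := by
        have : (4 : ZMod p) = 2 * 2 := by norm_num
        rw [this]; exact mul_ne_zero h2ne h2ne
      field_simp
      ring

end Pool.Agent.Results.MP_d2c11a_nt.SunCongruence
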