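import Mathlib

set_option autoImplicit false

open Finset

namespace Pool.Agent.Results.MP_d2c11a_nt.SunCosine

/-- The sequence `s_n = (6n)! n! / (2 (2n+1) (3n)! ((2n)!)^2)`. -/
noncomputable def s (n : ℕ) : ℝ :=
  (((6 * n).factorial : ℝ) * (n.factorial : ℝ)) /
    (2 * (2 * (n : ℝ) + 1) * ((3 * n).factorial : ℝ) * ((2 * n).factorial : ℝ) ^ 2)

section powerseries

lemma summable_bound (m : ℕ) {r : ℝ} (h0 : 0 < r) (h1 : r < 1) :
    Summable (fun n : ℕ => ((n : ℝ) + 1) ^ m * r ^ n) := by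
  have h := summable_pow_mul_geometric_of_norm_lt_one (R := ℝ) m (r := r)
    (by rw [Real.norm_eq_abs, abs_of_pos h0]; exact h1)
  have h2 := (summable_nat_add_iff 1).2 h
  have h3 := h2.mul_left (1 / r)
  refine h3.congr ?_
  intro n
  push_cast
  rw [pow_succ]
  field_simp

lemma summable_ps (c : ℕ → ℝ) (K : ℝ) (m : ℕ) (hc : ∀ n, |c n| ≤ K * ((n : ℝ) + 1) ^ m)
    {z : ℝ} (hz : |z| < 1) : Summable (fun n => c n * z ^ n) := by
  obtain ⟨r, hr1, hr2⟩ := exists_between hz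
  have hr0 : 0 < r := lt_of_le_of_lt (abs_nonneg z) hr1
  refine Summable.of_norm_bounded (g := fun n : ℕ => K * (((n : ℝ) + 1) ^ m * r ^ n))
    ((summable_bound m hr0 hr2).mul_left K) ?_
  intro n
  rw [norm_mul, norm_pow, Real.norm_eq_abs, Real.norm_eq_abs, ← mul_assoc]
  apply mul_le_mul (hc n) _ (by positivity) ((abs_nonneg _).trans (hc n))
  exact pow_le_pow_left₀ (abs_nonneg _) hr1.le n

lemma hasDeriv_ps (c : ℕ → ℝ) (K : ℝ) (m : ℕ) (hc : ∀ n, |c n| ≤ K * ((n : ℝ) + 1) ^ m)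
    {z : ℝ} (hz : |z| < 1) :
    HasDerivAt (fun z => ∑' n, c n * z ^ n) (∑' n : ℕ, (((n : ℝ) + 1) * c (n + 1)) * z ^ n) z := by
  obtain ⟨r, hr1, hr2⟩ := exists_between hz
  have hr0 : 0 < r := lt_of_le_of_lt (abs_nonneg z) hr1
  have hK : 0 ≤ K := by
    have := (abs_nonneg _).trans (hc 0)
    simpa using this
  have hu : Summable (fun n : ℕ => K * (((n : ℝ) + 1) ^ (m + 1) * r ^ n) * (1 / r)) :=
    ((summable_bound (m + 1) hr0 hr2).mul_left K).mul_right (1 / r)
  have key : HasDerivAt (fun z => ∑' n, c n * z ^ n) (∑' n : ℕ, c n * ((n : ℝ) * z ^ (n - 1))) z := by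
    refine hasDerivAt_tsum_of_isPreconnected (𝕜 := ℝ) (F := ℝ)
      (g := fun n z => c n * z ^ n) (g' := fun n z => c n * ((n : ℝ) * z ^ (n - 1))) hu
      (t := Set.Ioo (-r) r) isOpen_Ioo
      isPreconnected_Ioo ?_ ?_ (y₀ := 0) ⟨by linarith, hr0⟩ ?_ ?_
    · intro n y _
      exact (hasDerivAt_pow n y).const_mul (c n)
    · intro n y hy
      have hy' : |y| ≤ r := (abs_lt.mpr hy).le
      rw [norm_mul, norm_mul, norm_pow, Real.norm_eq_abs, Real.norm_eq_abs, Real.norm_eq_abs,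
        abs_of_nonneg (show (0 : ℝ) ≤ n by positivity)]
      rcases n with _ | n
      · simp
        positivity
      · have e : |y| ^ (n + 1 - 1) ≤ r ^ (n + 1) * (1 / r) := by
          have : r ^ (n + 1) * (1 / r) = r ^ n := by rw [pow_succ]; field_simp
          rw [this, Nat.add_sub_cancel]
          exact pow_le_pow_left₀ (abs_nonneg _) hy' n
        calc |c (n + 1)| * (((n + 1 : ℕ) : ℝ) * |y| ^ (n + 1 - 1))
            ≤ (K * ((((n + 1 : ℕ) : ℝ)) + 1) ^ m) * (((((n + 1 : ℕ) : ℝ)) + 1) *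
                (r ^ (n + 1) * (1 / r))) := by
              apply mul_le_mul (hc (n + 1)) _ (by positivity) (by positivity)
              apply mul_le_mul _ e (by positivity) (by positivity)
              linarith
          _ = K * ((((n + 1 : ℕ) : ℝ) + 1) ^ (m + 1) * r ^ (n + 1)) * (1 / r) := by ring
    · have := summable_ps c K m hc (z := 0) (by simp)
      exact this
    · exact abs_lt.mp hr1
  convert key using 1
  have hs : Summable (fun n : ℕ => c n * ((n : ℝ) * z ^ (n - 1))) := by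
    refine Summable.of_norm_bounded hu ?_
    intro n
    have hy' : |z| ≤ r := hr1.le
    rw [norm_mul, norm_mul, norm_pow, Real.norm_eq_abs, Real.norm_eq_abs, Real.norm_eq_abs,
      abs_of_nonneg (show (0 : ℝ) ≤ n by positivity)]
    rcases n with _ | n
    · simp
      positivity
    · have e : |z| ^ (n + 1 - 1) ≤ r ^ (n + 1) * (1 / r) := by
        have : r ^ (n + 1) * (1 / r) = r ^ n := by rw [pow_succ]; field_simp
        rw [this, Nat.add_sub_cancel]
        exact pow_le_pow_left₀ (abs_nonneg _) hy' n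
      calc |c (n + 1)| * (((n + 1 : ℕ) : ℝ) * |z| ^ (n + 1 - 1))
          ≤ (K * ((((n + 1 : ℕ) : ℝ)) + 1) ^ m) * (((((n + 1 : ℕ) : ℝ)) + 1) *
              (r ^ (n + 1) * (1 / r))) := by
            apply mul_le_mul (hc (n + 1)) _ (by positivity) (by positivity)
            apply mul_le_mul _ e (by positivity) (by positivity)
            linarith
        _ = K * ((((n + 1 : ℕ) : ℝ) + 1) ^ (m + 1) * r ^ (n + 1)) * (1 / r) := by ring
  rw [hs.tsum_eq_zero_add]
  simp only [Nat.cast_zero, zero_mul, mul_zero, zero_add, Nat.add_sub_cancel]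
  apply tsum_congr
  intro n
  push_cast
  ring

end powerseries

section ode

/-- coefficients of `z ↦ cos (2/3 * arccos z) / 12` -/
noncomputable def b : ℕ → ℝ
  | 0 => 1 / 24
  | 1 => 1 / (12 * √3)
  | (n + 2) => b n * (((n : ℝ) ^ 2 - 4 / 9) / (((n : ℝ) + 1) * ((n : ℝ) + 2)))

lemma b_add_two (n : ℕ) :
    b (n + 2) = b n * (((n : ℝ) ^ 2 - 4 / 9) / (((n : ℝ) + 1) * ((n : ℝ) + 2))) := by
  rw [b]

lemma b_le_one (n : ℕ) : |b n| ≤ 1 := by
  induction n using Nat.strong_induction_on with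
  | _ n ih =>
    rcases n with _ | _ | n
    · rw [b]; norm_num [abs_of_pos]
    · rw [b]
      have h3 : (1 : ℝ) ≤ √3 := by
        rw [show (1 : ℝ) = √1 by simp]
        exact Real.sqrt_le_sqrt (by norm_num)
      rw [abs_of_pos (by positivity), div_le_one (by positivity)]
      linarith
    · rw [b_add_two, abs_mul]
      have h1 := ih n (by omega)
      have h2 : |((n : ℝ) ^ 2 - 4 / 9) / (((n : ℝ) + 1) * ((n : ℝ) + 2))| ≤ 1 := by
        rw [abs_div, abs_of_pos (show (0 : ℝ) < ((n : ℝ) + 1) * ((n : ℝ) + 2) by positivity),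
          div_le_one (by positivity), abs_le]
        have hn : (0 : ℝ) ≤ n := by positivity
        constructor <;> nlinarith
      calc |b n| * _ ≤ 1 * 1 := mul_le_mul h1 h2 (abs_nonneg _) (by norm_num)
        _ = 1 := by norm_num

noncomputable def y0 (z : ℝ) : ℝ := ∑' n, b n * z ^ n
noncomputable def y1 (z : ℝ) : ℝ := ∑' n : ℕ, (((n : ℝ) + 1) * b (n + 1)) * z ^ n
noncomputable def y2 (z : ℝ) : ℝ :=
  ∑' n : ℕ, (((n : ℝ) + 1) * ((((n + 1 : ℕ) : ℝ) + 1) * b (n + 1 + 1))) * z ^ n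

lemma hb0 : ∀ n, |b n| ≤ 1 * ((n : ℝ) + 1) ^ 0 := by
  intro n; simpa using b_le_one n

lemma hb1 : ∀ n : ℕ, |((n : ℝ) + 1) * b (n + 1)| ≤ 1 * ((n : ℝ) + 1) ^ 1 := by
  intro n
  rw [abs_mul, abs_of_pos (show (0 : ℝ) < (n : ℝ) + 1 by positivity)]
  have := b_le_one (n + 1)
  have h : (0 : ℝ) < (n : ℝ) + 1 := by positivity
  nlinarith

lemma hb2 : ∀ n : ℕ, |((n : ℝ) + 1) * ((((n + 1 : ℕ) : ℝ) + 1) * b (n + 1 + 1))|
    ≤ 2 * ((n : ℝ) + 1) ^ 2 := by
  intro n
  have h : (0 : ℝ) < (n : ℝ) + 1 := by positivity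
  have h' : (0 : ℝ) < (((n + 1 : ℕ) : ℝ) + 1) := by positivity
  rw [abs_mul, abs_mul, abs_of_pos h, abs_of_pos h']
  have := b_le_one (n + 1 + 1)
  have h2 : (((n + 1 : ℕ) : ℝ) + 1) ≤ 2 * ((n : ℝ) + 1) := by
    push_cast
    have : (0 : ℝ) ≤ n := by positivity
    linarith
  calc ((n : ℝ) + 1) * ((((n + 1 : ℕ) : ℝ) + 1) * |b (n + 1 + 1)|)
      ≤ ((n : ℝ) + 1) * ((2 * ((n : ℝ) + 1)) * 1) := by
        apply mul_le_mul_of_nonneg_left _ h.le
        exact mul_le_mul h2 this (abs_nonneg _) (by positivity)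
    _ = 2 * ((n : ℝ) + 1) ^ 2 := by ring

lemma hy0 {z : ℝ} (hz : |z| < 1) : HasDerivAt y0 (y1 z) z :=
  hasDeriv_ps b 1 0 hb0 hz

lemma hy1 {z : ℝ} (hz : |z| < 1) : HasDerivAt y1 (y2 z) z :=
  hasDeriv_ps (fun n => ((n : ℝ) + 1) * b (n + 1)) 1 1 hb1 hz

lemma ode {z : ℝ} (hz : |z| < 1) : (1 - z ^ 2) * y2 z - z * y1 z = -(4 / 9) * y0 z := by
  have s0 := summable_ps b 1 0 hb0 hz
  have s1 := summable_ps (fun n => ((n : ℝ) + 1) * b (n + 1)) 1 1 hb1 hz
  have s2 := summable_ps (fun n : ℕ => ((n : ℝ) + 1) * ((((n + 1 : ℕ) : ℝ) + 1) * b (n + 1 + 1)))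
    2 2 hb2 hz
  -- z * y1 = Σ n b_n z^n
  have e1 : z * y1 z = ∑' n : ℕ, ((n : ℝ) * b n) * z ^ n := by
    have hs : Summable (fun n : ℕ => ((n : ℝ) * b n) * z ^ n) := by
      rw [← summable_nat_add_iff 1]
      refine (s1.mul_left z).congr ?_
      intro n; push_cast; ring
    rw [hs.tsum_eq_zero_add]
    unfold y1
    rw [← tsum_mul_left]
    simp only [Nat.cast_zero, zero_mul, zero_add]
    apply tsum_congr
    intro n; push_cast; ring
  have hs1 : Summable (fun n : ℕ => ((n : ℝ) * b n) * z ^ n) := by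
    rw [← summable_nat_add_iff 1]
    refine (s1.mul_left z).congr ?_
    intro n; push_cast; ring
  have hs2 : Summable (fun n : ℕ => ((n : ℝ) * ((n : ℝ) - 1) * b n) * z ^ n) := by
    rw [← summable_nat_add_iff 2]
    refine (s2.mul_left (z ^ 2)).congr ?_
    intro n; push_cast; ring
  have e2 : z ^ 2 * y2 z = ∑' n : ℕ, ((n : ℝ) * ((n : ℝ) - 1) * b n) * z ^ n := by
    rw [hs2.tsum_eq_zero_add]
    have hs2' := (summable_nat_add_iff 1).2 hs2
    rw [hs2'.tsum_eq_zero_add]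
    unfold y2
    rw [← tsum_mul_left]
    simp only [Nat.cast_zero, zero_mul, zero_add, Nat.cast_one, sub_self, mul_zero]
    apply tsum_congr
    intro n; push_cast; ring
  have e3 : (1 - z ^ 2) * y2 z - z * y1 z = y2 z - z ^ 2 * y2 z - z * y1 z := by ring
  rw [e3, e1, e2]
  unfold y2 y0
  rw [← s2.tsum_sub hs2, ← (s2.sub hs2).tsum_sub hs1, ← tsum_mul_left]
  apply tsum_congr
  intro n
  have e4 : n + 1 + 1 = n + 2 := rfl
  rw [e4, b_add_two]
  push_cast
  have h1 : ((n : ℝ) + 1) ≠ 0 := by positivity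
  have h2 : ((n : ℝ) + 2) ≠ 0 := by positivity
  field_simp
  ring

lemma y0_sin {θ : ℝ} (h1 : -(Real.pi / 2) < θ) (h2 : θ < Real.pi / 2) :
    y0 (Real.sin θ) = 1 / 24 * Real.cos (2 / 3 * θ) + √3 / 24 * Real.sin (2 / 3 * θ) := by
  have hsin : ∀ φ ∈ Set.Ioo (-(Real.pi / 2)) (Real.pi / 2), |Real.sin φ| < 1 := by
    intro φ hφ
    have hc := Real.cos_pos_of_mem_Ioo hφ
    rw [← sq_lt_one_iff_abs_lt_one]
    nlinarith [Real.sin_sq_add_cos_sq φ]
  -- derivatives of h(θ) = y0 (sin θ) and k(θ) = y1 (sin θ) cos θ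
  have dh : ∀ φ ∈ Set.Ioo (-(Real.pi / 2)) (Real.pi / 2),
      HasDerivAt (fun φ => y0 (Real.sin φ)) (y1 (Real.sin φ) * Real.cos φ) φ := by
    intro φ hφ
    exact (hy0 (hsin φ hφ)).comp φ (Real.hasDerivAt_sin φ)
  have dk : ∀ φ ∈ Set.Ioo (-(Real.pi / 2)) (Real.pi / 2),
      HasDerivAt (fun φ => y1 (Real.sin φ) * Real.cos φ) (-(4 / 9) * y0 (Real.sin φ)) φ := by
    intro φ hφ
    have := ((hy1 (hsin φ hφ)).comp φ (Real.hasDerivAt_sin φ)).mul (Real.hasDerivAt_cos φ)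
    refine this.congr_deriv ?_
    rw [← ode (hsin φ hφ)]
    have e := Real.sin_sq_add_cos_sq φ
    have e' : 1 - Real.sin φ ^ 2 = Real.cos φ ^ 2 := by linarith
    rw [e']
    simp only [Function.comp]
    ring
  have dc : ∀ φ : ℝ, HasDerivAt (fun φ => Real.cos (2 / 3 * φ)) (-(2 / 3) * Real.sin (2 / 3 * φ)) φ := by
    intro φ
    have := (Real.hasDerivAt_cos (2 / 3 * φ)).comp φ ((hasDerivAt_id φ).const_mul (2 / 3 : ℝ))
    refine this.congr_deriv ?_
    ring
  have ds : ∀ φ : ℝ, HasDerivAt (fun φ => Real.sin (2 / 3 * φ)) ((2 / 3) * Real.cos (2 / 3 * φ)) φ := by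
    intro φ
    have := (Real.hasDerivAt_sin (2 / 3 * φ)).comp φ ((hasDerivAt_id φ).const_mul (2 / 3 : ℝ))
    refine this.congr_deriv ?_
    ring
  have h0mem : (0 : ℝ) ∈ Set.Ioo (-(Real.pi / 2)) (Real.pi / 2) :=
    ⟨by linarith [Real.pi_pos], by linarith [Real.pi_pos]⟩
  have hconst : ∀ (F : ℝ → ℝ), (∀ φ ∈ Set.Ioo (-(Real.pi / 2)) (Real.pi / 2), HasDerivAt F 0 φ) →
      F θ = F 0 := by
    intro F hF
    apply (convex_Ioo (-(Real.pi / 2)) (Real.pi / 2)).is_const_of_fderivWithin_eq_zero (𝕜 := ℝ)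
    · intro φ hφ
      exact (hF φ hφ).differentiableAt.differentiableWithinAt
    · intro φ hφ
      have := (hF φ hφ).hasFDerivAt.hasFDerivWithinAt (s := Set.Ioo (-(Real.pi / 2)) (Real.pi / 2))
      rw [this.fderivWithin (isOpen_Ioo.uniqueDiffWithinAt hφ)]
      ext; simp
    · exact ⟨h1, h2⟩
    · exact h0mem
  have hA := hconst (fun φ => y0 (Real.sin φ) * Real.cos (2 / 3 * φ)
      - (3 / 2) * (y1 (Real.sin φ) * Real.cos φ) * Real.sin (2 / 3 * φ)) (by
    intro φ hφ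
    have := ((dh φ hφ).mul (dc φ)).sub (((dk φ hφ).const_mul (3 / 2 : ℝ)).mul (ds φ))
    refine this.congr_deriv ?_
    ring)
  have hB := hconst (fun φ => y0 (Real.sin φ) * Real.sin (2 / 3 * φ)
      + (3 / 2) * (y1 (Real.sin φ) * Real.cos φ) * Real.cos (2 / 3 * φ)) (by
    intro φ hφ
    have := ((dh φ hφ).mul (ds φ)).add (((dk φ hφ).const_mul (3 / 2 : ℝ)).mul (dc φ))
    refine this.congr_deriv ?_
    ring)
  have v0 : y0 0 = 1 / 24 := by
    unfold y0
    rw [tsum_eq_single 0]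
    · simp [b]
    · intro n hn; simp [hn]
  have v1 : y1 0 = 1 / (12 * √3) := by
    unfold y1
    rw [tsum_eq_single 0]
    · simp [b]
    · intro n hn; simp [hn]
  simp only [Real.sin_zero, mul_zero, Real.cos_zero, mul_one, v0, v1, sub_zero, zero_add] at hA hB
  have h3 : (√3 : ℝ) ≠ 0 := by positivity
  have h33 : √3 * √3 = (3 : ℝ) := Real.mul_self_sqrt (by norm_num)
  have hB' : 3 / 2 * (1 / (12 * √3)) = √3 / 24 := by
    field_simp
    nlinarith
  rw [hB'] at hB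
  have e := Real.sin_sq_add_cos_sq (2 / 3 * θ)
  linear_combination (Real.cos (2 / 3 * θ)) * hA + (Real.sin (2 / 3 * θ)) * hB
    - (y0 (Real.sin θ)) * e

/-- telescoping bound for the absolute coefficients -/
lemma partial_sum (N : ℕ) : ∑ n ∈ range N, |b (n + 1)| ≤
    2 * (|b 1| + 2 * |b 2|)
      - 2 * (((N : ℝ) + 1) * |b (N + 1)| + ((N : ℝ) + 2) * |b (N + 2)|) := by
  induction N with
  | zero => simp
  | succ N ih =>
    rw [Finset.sum_range_succ]
    have e : |b (N + 3)| = |b (N + 1)| *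
        (((((N + 1 : ℕ) : ℝ)) ^ 2 - 4 / 9) / (((((N + 1 : ℕ) : ℝ)) + 1) * ((((N + 1 : ℕ) : ℝ)) + 2))) := by
      have := b_add_two (N + 1)
      have e2 : N + 1 + 2 = N + 3 := rfl
      rw [e2] at this
      rw [this, abs_mul]
      congr 1
      apply abs_of_nonneg
      apply div_nonneg _ (by positivity)
      push_cast
      have : (0 : ℝ) ≤ N := by positivity
      nlinarith
    have key : |b (N + 1)| ≤ 2 * (((N : ℝ) + 1) * |b (N + 1)| - ((N : ℝ) + 3) * |b (N + 3)|) := by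
      rw [e]
      push_cast
      have hN : (0 : ℝ) ≤ N := by positivity
      have h1 : ((N : ℝ) + 3) * (|b (N + 1)| * ((((N : ℝ) + 1) ^ 2 - 4 / 9) /
          ((((N : ℝ) + 1) + 1) * (((N : ℝ) + 1) + 2))))
          = |b (N + 1)| * ((((N : ℝ) + 1) ^ 2 - 4 / 9) / ((N : ℝ) + 2)) := by
        field_simp
        ring
      rw [h1]
      have h2 : (((N : ℝ) + 1) ^ 2 - 4 / 9) / ((N : ℝ) + 2) ≤ (N : ℝ) + 1 / 2 := by
        rw [div_le_iff₀ (by positivity)]
        nlinarith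
      nlinarith [abs_nonneg (b (N + 1))]
    have e4 : N + 1 + 1 = N + 2 := rfl
    have e5 : N + 1 + 2 = N + 3 := rfl
    rw [e4, e5]
    push_cast
    linarith

lemma summable_abs_b : Summable (fun n => |b n|) := by
  rw [← summable_nat_add_iff 1]
  apply summable_of_sum_range_le (c := 2 * (|b 1| + 2 * |b 2|)) (fun n => abs_nonneg _)
  intro N
  have := partial_sum N
  have h1 : 0 ≤ ((N : ℝ) + 1) * |b (N + 1)| + ((N : ℝ) + 2) * |b (N + 2)| := by positivity
  linarith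

lemma y0_cont : ContinuousOn y0 (Set.Icc (-1) 1) := by
  unfold y0
  apply continuousOn_tsum (u := fun n => |b n|)
  · intro n
    fun_prop
  · exact summable_abs_b
  · intro n x hx
    rw [norm_mul, norm_pow, Real.norm_eq_abs, Real.norm_eq_abs]
    have : |x| ≤ 1 := abs_le.mpr hx
    calc |b n| * |x| ^ n ≤ |b n| * 1 :=
          mul_le_mul_of_nonneg_left (pow_le_one₀ (abs_nonneg _) this) (abs_nonneg _)
      _ = |b n| := mul_one _

lemma y0_sin' {θ : ℝ} (hθ : θ ∈ Set.Icc (-(Real.pi / 2)) (Real.pi / 2)) :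
    y0 (Real.sin θ) = 1 / 24 * Real.cos (2 / 3 * θ) + √3 / 24 * Real.sin (2 / 3 * θ) := by
  have hcl : closure (Set.Ioo (-(Real.pi / 2)) (Real.pi / 2))
      = Set.Icc (-(Real.pi / 2)) (Real.pi / 2) :=
    closure_Ioo (by linarith [Real.pi_pos])
  have h1 : ContinuousOn (fun θ => y0 (Real.sin θ)) (Set.Icc (-(Real.pi / 2)) (Real.pi / 2)) := by
    apply y0_cont.comp Real.continuous_sin.continuousOn
    intro φ _
    exact Real.sin_mem_Icc φ
  have h2 : ContinuousOn (fun θ => 1 / 24 * Real.cos (2 / 3 * θ) + √3 / 24 * Real.sin (2 / 3 * θ))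
      (Set.Icc (-(Real.pi / 2)) (Real.pi / 2)) := by
    fun_prop
  have h3 : Set.EqOn (fun θ => y0 (Real.sin θ))
      (fun θ => 1 / 24 * Real.cos (2 / 3 * θ) + √3 / 24 * Real.sin (2 / 3 * θ))
      (Set.Ioo (-(Real.pi / 2)) (Real.pi / 2)) := by
    intro φ hφ
    exact y0_sin hφ.1 hφ.2
  exact h3.of_subset_closure h1 h2 Set.Ioo_subset_Icc_self (by rw [hcl]) hθ

lemma y0_arccos {z : ℝ} (hz : |z| ≤ 1) :
    1 / 12 * Real.cos (2 / 3 * Real.arccos z) = y0 z := by
  have hz' := abs_le.mp hz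
  have h := y0_sin' (θ := Real.arcsin z) (Real.arcsin_mem_Icc z)
  rw [Real.sin_arcsin hz'.1 hz'.2] at h
  rw [h, Real.arccos]
  have e : 2 / 3 * (Real.pi / 2 - Real.arcsin z) = Real.pi / 3 - 2 / 3 * Real.arcsin z := by ring
  rw [e, Real.cos_sub, Real.cos_pi_div_three, Real.sin_pi_div_three]
  ring

end ode

section coeffs

/-- the integers `t_k`, `k ≥ 1` -/
def t (k : ℕ) : ℕ := 16 ^ (k - 1) * ((3 * k - 2).choose (k - 1) / k)

lemma dvd_choose (j : ℕ) : (j + 1) ∣ (3 * j + 1).choose j := by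
  have h1 : (3 * j + 2) * (3 * j + 1).choose j = (3 * j + 2).choose (j + 1) * (j + 1) := by
    have := Nat.add_one_mul_choose_eq (3 * j + 1) j
    simpa using this
  have h2 : (j + 1) ∣ (3 * j + 2) * (3 * j + 1).choose j := ⟨_, by rw [h1, mul_comm]⟩
  have h3 : Nat.Coprime (j + 1) (3 * j + 2) := by
    have a := Nat.gcd_dvd_left (j + 1) (3 * j + 2)
    have b := Nat.gcd_dvd_right (j + 1) (3 * j + 2)
    have c := Nat.dvd_sub (Dvd.dvd.mul_left a 3) b
    have e : 3 * (j + 1) - (3 * j + 2) = 1 := by omega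
    rw [e] at c
    exact Nat.dvd_one.mp c
  exact h3.dvd_of_dvd_mul_left h2

/-- `u_j = C(3j+1, j) / (j+1)` -/
lemma u_mul (j : ℕ) : (j + 1) * ((3 * j + 1).choose j / (j + 1)) = (3 * j + 1).choose j :=
  Nat.mul_div_cancel' (dvd_choose j)

lemma t_succ (j : ℕ) : t (j + 1) = 16 ^ j * ((3 * j + 1).choose j / (j + 1)) := by
  unfold t
  have e1 : j + 1 - 1 = j := by omega
  have e2 : 3 * (j + 1) - 2 = 3 * j + 1 := by omega
  rw [e1, e2]

lemma t_real (j : ℕ) : (t (j + 1) : ℝ) =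
    16 ^ j * ((3 * j + 1).factorial : ℝ) / (((j + 1).factorial : ℝ) * ((2 * j + 1).factorial : ℝ)) := by
  rw [t_succ]
  have h1 : (((j : ℝ) + 1) * (((3 * j + 1).choose j / (j + 1) : ℕ) : ℝ)) = ((3 * j + 1).choose j : ℝ) := by
    exact_mod_cast u_mul j
  have h2 : ((3 * j + 1).choose j : ℝ) * (j.factorial : ℝ) * ((2 * j + 1).factorial : ℝ)
      = ((3 * j + 1).factorial : ℝ) := by
    have := Nat.choose_mul_factorial_mul_factorial (show j ≤ 3 * j + 1 by omega)
    have e : 3 * j + 1 - j = 2 * j + 1 := by omega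
    rw [e] at this
    exact_mod_cast this
  have h3 : ((j + 1).factorial : ℝ) = ((j : ℝ) + 1) * (j.factorial : ℝ) := by
    rw [Nat.factorial_succ]; push_cast; rfl
  have g1 : (j.factorial : ℝ) ≠ 0 := by exact_mod_cast Nat.factorial_ne_zero _
  have g2 : ((2 * j + 1).factorial : ℝ) ≠ 0 := by exact_mod_cast Nat.factorial_ne_zero _
  have g3 : ((j : ℝ) + 1) ≠ 0 := by positivity
  rw [h3, ← h2, ← h1]
  push_cast
  field_simp

lemma t_pos (k : ℕ) (hk : 1 ≤ k) : 0 < t k := by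
  obtain ⟨j, rfl⟩ : ∃ j, k = j + 1 := ⟨k - 1, by omega⟩
  rw [t_succ]
  apply Nat.mul_pos (by positivity)
  have h := u_mul j
  have h2 : 0 < (3 * j + 1).choose j := Nat.choose_pos (by omega)
  apply Nat.pos_of_ne_zero
  intro h0'
  rw [h0', mul_zero] at h
  omega

lemma t_prime (p : ℕ) (hp : p.Prime) : p ∣ t p + 2 := by
  have : Fact p.Prime := ⟨hp⟩
  obtain ⟨j, rfl⟩ : ∃ j, p = j + 1 := ⟨p - 1, by have := hp.two_le; omega⟩
  rcases hp.eq_two_or_odd' with h2 | hodd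
  · have : j = 1 := by omega
    subst this
    decide
  have hj : 2 ≤ j := by
    have := hp.two_le
    rcases hodd with ⟨q, hq⟩
    omega
  rw [t_succ, ← ZMod.natCast_eq_zero_iff]
  -- `j! * C(3j+1, j) = (2j+2)(2j+3)...(3j+1)`
  have h1 := Nat.ascFactorial_eq_factorial_mul_choose (2 * j + 1) j
  have e1 : 2 * j + 1 + j = 3 * j + 1 := by ring
  rw [e1, ← u_mul j, Nat.ascFactorial_eq_prod_range] at h1
  obtain ⟨i, rfl⟩ : ∃ i, j = i + 1 := ⟨j - 1, by omega⟩
  rw [Finset.prod_range_succ'] at h1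
  have h2 : 2 * ∏ k ∈ range i, (2 * (i + 1) + 1 + 1 + (k + 1))
      = (i + 1).factorial * ((3 * (i + 1) + 1).choose (i + 1) / (i + 1 + 1)) := by
    have h3 : (i + 2) * (2 * ∏ k ∈ range i, (2 * (i + 1) + 1 + 1 + (k + 1)))
      = (i + 2) * ((i + 1).factorial * ((3 * (i + 1) + 1).choose (i + 1) / (i + 1 + 1))) := by
      linarith [h1]
    exact Nat.eq_of_mul_eq_mul_left (by omega) h3
  have h4 := congrArg (Nat.cast : ℕ → ZMod (i + 1 + 1)) h2
  have hz : ((i : ZMod (i + 1 + 1)) + 1 + 1) = 0 := by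
    have := ZMod.natCast_self (i + 1 + 1)
    push_cast at this
    exact this
  have h5 : (∏ k ∈ range i, (2 * ((i : ZMod (i + 1 + 1)) + 1) + 1 + 1 + (k + 1)))
      = (i.factorial : ZMod (i + 1 + 1)) := by
    rw [← Finset.prod_range_add_one_eq_factorial]
    push_cast
    apply Finset.prod_congr rfl
    intro k _
    linear_combination 2 * hz
  push_cast at h4
  rw [h5] at h4
  have hfac : (i.factorial : ZMod (i + 1 + 1)) ≠ 0 := by
    intro h0
    rw [ZMod.natCast_eq_zero_iff, Nat.Prime.dvd_factorial hp] at h0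
    omega
  have h16 : (16 : ZMod (i + 1 + 1)) ^ (i + 1) = 1 := by
    have h16' : (16 : ZMod (i + 1 + 1)) ≠ 0 := by
      have : (16 : ZMod (i + 1 + 1)) = ((16 : ℕ) : ZMod (i + 1 + 1)) := by norm_num
      rw [this]
      intro h0
      rw [ZMod.natCast_eq_zero_iff] at h0
      have h6 : (i + 1 + 1) ∣ 2 ^ 4 := by simpa using h0
      have h7 := hp.dvd_of_dvd_pow h6
      have h8 := Nat.le_of_dvd (by norm_num) h7
      omega
    have := ZMod.pow_card_sub_one_eq_one h16'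
    simpa using this
  have h9 : ((i + 1).factorial : ZMod (i + 1 + 1)) = -(i.factorial : ZMod (i + 1 + 1)) := by
    rw [Nat.factorial_succ]
    push_cast
    linear_combination (i.factorial : ZMod (i + 1 + 1)) * hz
  rw [h9] at h4
  push_cast
  rw [h16]
  have h10 : (i.factorial : ZMod (i + 1 + 1)) *
      ((((3 * (i + 1) + 1).choose (i + 1) / (i + 1 + 1) : ℕ) : ZMod (i + 1 + 1)) + 2) = 0 := by
    linear_combination h4
  rcases mul_eq_zero.mp h10 with h | h
  · exact absurd h hfac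
  · linear_combination h

lemma s_succ (k : ℕ) : s (k + 1) =
    s k * (108 * (((6 * (k : ℝ) + 1) * (6 * k + 5)) / (18 * (2 * k + 3) * (k + 1)))) := by
  unfold s
  have e6 : 6 * (k + 1) = 6 * k + 6 := by ring
  have e3 : 3 * (k + 1) = 3 * k + 3 := by ring
  have e2 : 2 * (k + 1) = 2 * k + 2 := by ring
  rw [e6, e3, e2]
  have f6 : ((6 * k + 6).factorial : ℝ) = (6 * k + 6) * (6 * k + 5) * (6 * k + 4) * (6 * k + 3)
      * (6 * k + 2) * (6 * k + 1) * ((6 * k).factorial : ℝ) := by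
    simp only [Nat.factorial_succ]
    push_cast
    ring
  have f3 : ((3 * k + 3).factorial : ℝ) = (3 * k + 3) * (3 * k + 2) * (3 * k + 1)
      * ((3 * k).factorial : ℝ) := by
    simp only [Nat.factorial_succ]
    push_cast
    ring
  have f2 : ((2 * k + 2).factorial : ℝ) = (2 * k + 2) * (2 * k + 1)
      * ((2 * k).factorial : ℝ) := by
    simp only [Nat.factorial_succ]
    push_cast
    ring
  have f1 : ((k + 1).factorial : ℝ) = (k + 1) * (k.factorial : ℝ) := by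
    simp only [Nat.factorial_succ]
    push_cast
    ring
  rw [f6, f3, f2, f1]
  have g3 : ((3 * k).factorial : ℝ) ≠ 0 := by exact_mod_cast Nat.factorial_ne_zero _
  have g2 : ((2 * k).factorial : ℝ) ≠ 0 := by exact_mod_cast Nat.factorial_ne_zero _
  have g1 : (k.factorial : ℝ) ≠ 0 := by exact_mod_cast Nat.factorial_ne_zero _
  have p1 : (2 * (k : ℝ) + 1) ≠ 0 := by positivity
  have p2 : (2 * (k : ℝ) + 3) ≠ 0 := by positivity
  have p3 : ((k : ℝ) + 1) ≠ 0 := by positivity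
  have p4 : (3 * (k : ℝ) + 1) ≠ 0 := by positivity
  have p5 : (3 * (k : ℝ) + 2) ≠ 0 := by positivity
  have p6 : (3 * (k : ℝ) + 3) ≠ 0 := by positivity
  have p7 : (2 * (k : ℝ) + 2) ≠ 0 := by positivity
  have p8 : (2 * ((k : ℝ) + 1) + 1) ≠ 0 := by positivity
  push_cast
  field_simp
  ring

lemma b_odd (k : ℕ) : b (2 * k + 1) = s k / (108 ^ k * (6 * √3)) := by
  have h3 : (√3 : ℝ) ≠ 0 := by positivity
  induction k with
  | zero =>
    simp [b, s]
    field_simp
    norm_num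
  | succ k ih =>
    have e : 2 * (k + 1) + 1 = (2 * k + 1) + 2 := by ring
    rw [e, b_add_two, ih, s_succ]
    push_cast
    have p1 : (2 * (k : ℝ) + 1 + 1) ≠ 0 := by positivity
    have p2 : (2 * (k : ℝ) + 1 + 2) ≠ 0 := by positivity
    have p3 : (2 * (k : ℝ) + 3) ≠ 0 := by positivity
    have p4 : ((k : ℝ) + 1) ≠ 0 := by positivity
    rw [pow_succ]
    field_simp
    ring

lemma b_even (k : ℕ) : b (2 * (k + 1)) = -(t (k + 1) : ℝ) / 108 ^ (k + 1) := by
  induction k with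
  | zero =>
    have e : 2 * (0 + 1) = 0 + 2 := by ring
    rw [e, b_add_two, t_real]
    simp [b]
    norm_num
  | succ k ih =>
    have e : 2 * (k + 1 + 1) = 2 * (k + 1) + 2 := by ring
    rw [e, b_add_two, ih, t_real, t_real]
    have e1 : 3 * (k + 1) + 1 = 3 * k + 1 + 3 := by ring
    have e2 : 2 * (k + 1) + 1 = 2 * k + 1 + 2 := by ring
    rw [e1, e2]
    have f3 : ((3 * k + 1 + 3).factorial : ℝ) = (3 * k + 4) * (3 * k + 3) * (3 * k + 2)
        * ((3 * k + 1).factorial : ℝ) := by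
      simp only [Nat.factorial_succ]
      push_cast
      ring
    have f2 : ((2 * k + 1 + 2).factorial : ℝ) = (2 * k + 3) * (2 * k + 2)
        * ((2 * k + 1).factorial : ℝ) := by
      simp only [Nat.factorial_succ]
      push_cast
      ring
    have f1 : ((k + 1 + 1).factorial : ℝ) = (k + 2) * ((k + 1).factorial : ℝ) := by
      rw [Nat.factorial_succ]
      push_cast
      ring
    rw [f3, f2, f1]
    have g3 : ((3 * k + 1).factorial : ℝ) ≠ 0 := by exact_mod_cast Nat.factorial_ne_zero _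
    have g2 : ((2 * k + 1).factorial : ℝ) ≠ 0 := by exact_mod_cast Nat.factorial_ne_zero _
    have g1 : ((k + 1).factorial : ℝ) ≠ 0 := by exact_mod_cast Nat.factorial_ne_zero _
    have p1 : (2 * (k : ℝ) + 3) ≠ 0 := by positivity
    have p2 : (2 * (k : ℝ) + 2) ≠ 0 := by positivity
    have p3 : ((k : ℝ) + 2) ≠ 0 := by positivity
    have p4 : (2 * ((k : ℝ) + 1) + 1) ≠ 0 := by positivity
    have p5 : (2 * ((k : ℝ) + 1) + 2) ≠ 0 := by positivity
    push_cast
    field_simp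
    ring

end coeffs

/-- **Sun's cosine expansion.** -/
theorem result : ∃ t : ℕ → ℕ, (∀ k, 1 ≤ k → 0 < t k) ∧
    (∀ x : ℝ, |x| ≤ 1 / (6 * √3) → ∃ A B : ℝ,
      HasSum (fun k : ℕ => s k * x ^ (2 * k + 1)) A ∧
      HasSum (fun k : ℕ => (t (k + 1) : ℝ) * x ^ (2 * (k + 1))) B ∧
      1 / 12 * Real.cos (2 / 3 * Real.arccos (6 * √3 * x)) = 1 / 24 + A - B) ∧
    (∀ p : ℕ, p.Prime → p ∣ t p + 2) := by
  refine ⟨t, t_pos, ?_, t_prime⟩
  intro x hx
  have h3 : (0 : ℝ) < √3 := by positivity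
  have h33 : √3 * √3 = (3 : ℝ) := Real.mul_self_sqrt (by norm_num)
  have hz : |6 * √3 * x| ≤ 1 := by
    rw [abs_mul, abs_of_pos (show (0 : ℝ) < 6 * √3 by positivity)]
    calc 6 * √3 * |x| ≤ 6 * √3 * (1 / (6 * √3)) := by gcongr
      _ = 1 := by field_simp
  have hsum : Summable (fun n => b n * (6 * √3 * x) ^ n) := by
    refine Summable.of_norm_bounded summable_abs_b ?_
    intro n
    rw [norm_mul, norm_pow, Real.norm_eq_abs, Real.norm_eq_abs]
    calc |b n| * |6 * √3 * x| ^ n ≤ |b n| * 1 :=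
          mul_le_mul_of_nonneg_left (pow_le_one₀ (abs_nonneg _) hz) (abs_nonneg _)
      _ = |b n| := mul_one _
  have hodd : Summable (fun k : ℕ => b (2 * k + 1) * (6 * √3 * x) ^ (2 * k + 1)) :=
    hsum.comp_injective (i := fun k : ℕ => 2 * k + 1) (by intro a b h; simp at h; exact h)
  have heven : Summable (fun k : ℕ => b (2 * k) * (6 * √3 * x) ^ (2 * k)) :=
    hsum.comp_injective (i := fun k : ℕ => 2 * k) (by intro a b h; simp at h; exact h)
  have htot := heven.hasSum.even_add_odd (f := fun n => b n * (6 * √3 * x) ^ n) hodd.hasSum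
  have hy : y0 (6 * √3 * x) = (∑' k : ℕ, b (2 * k) * (6 * √3 * x) ^ (2 * k))
      + ∑' k : ℕ, b (2 * k + 1) * (6 * √3 * x) ^ (2 * k + 1) := htot.tsum_eq
  have hpow : ∀ k : ℕ, (6 * √3 * x) ^ (2 * k) = 108 ^ k * x ^ (2 * k) := by
    intro k
    rw [pow_mul, pow_mul, ← mul_pow]
    congr 1
    linear_combination 36 * x ^ 2 * h33
  have oterm : ∀ k : ℕ, b (2 * k + 1) * (6 * √3 * x) ^ (2 * k + 1) = s k * x ^ (2 * k + 1) := by
    intro k
    rw [b_odd, pow_succ, hpow, pow_succ]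
    have : (108 : ℝ) ^ k ≠ 0 := by positivity
    field_simp
  have eterm : ∀ k : ℕ, b (2 * (k + 1)) * (6 * √3 * x) ^ (2 * (k + 1))
      = -((t (k + 1) : ℝ) * x ^ (2 * (k + 1))) := by
    intro k
    rw [b_even, hpow]
    have : (108 : ℝ) ^ (k + 1) ≠ 0 := by positivity
    field_simp
  have heven1 := (summable_nat_add_iff 1).2 heven
  have hsB : Summable (fun k : ℕ => (t (k + 1) : ℝ) * x ^ (2 * (k + 1))) := by
    refine heven1.neg.congr ?_
    intro k
    rw [eterm, neg_neg]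
  have hsA : Summable (fun k : ℕ => s k * x ^ (2 * k + 1)) := hodd.congr oterm
  refine ⟨∑' k : ℕ, s k * x ^ (2 * k + 1), ∑' k : ℕ, (t (k + 1) : ℝ) * x ^ (2 * (k + 1)),
    hsA.hasSum, hsB.hasSum, ?_⟩
  rw [y0_arccos hz, hy, heven.tsum_eq_zero_add, tsum_congr oterm, tsum_congr eterm, tsum_neg]
  simp only [mul_zero, pow_zero, mul_one]
  rw [show b 0 = 1 / 24 from rfl]
  ring

end Pool.Agent.Results.MP_d2c11a_nt.SunCosine
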